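import Pool.Agent.X26.LF.Stm

set_option autoImplicit false

namespace Pool.Agent.X271.LF

open Finset Pool.Agent.X26.LF

open Classical in
theorem range_card {m N : ℕ} (ι : Fin m ↪ Fin N) :
    (univ.filter fun ι' : Fin m ↪ Fin N => ∀ i, (∃ j, ι' j = i) ↔ ∃ j, ι j = i).card ≤ m.factorial := by
  have h1 : (univ.filter fun ι' : Fin m ↪ Fin N => ∀ i, (∃ j, ι' j = i) ↔ ∃ j, ι j = i) ⊆
      (univ : Finset (Equiv.Perm (Fin m))).image fun σ => σ.toEmbedding.trans ι := by
    intro ι' h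
    rw [mem_filter] at h
    have h2 : ∀ j, ∃ k, ι k = ι' j := fun j => (h.2 (ι' j)).1 ⟨j, rfl⟩
    choose f hf using h2
    have hinj : Function.Injective f := by
      intro a b hab
      apply ι'.injective
      rw [← hf a, ← hf b, hab]
    rw [mem_image]
    refine ⟨Equiv.ofBijective f (Finite.injective_iff_bijective.1 hinj), mem_univ _, ?_⟩
    ext j
    exact congrArg Fin.val (hf j)
  refine (card_le_card h1).trans (card_image_le.trans ?_)
  rw [card_univ, Fintype.card_perm, Fintype.card_fin]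

open Classical in
theorem t_SM : S_CNT → S_SM := by
  intro hC m p N _ u s hm hu hT
  have hp : 0 < p := (Fact.out : p.Prime).pos
  let c : (Fin m ↪ Fin N) → Fin N → ZMod p := fun ι i => ∑ j, if ι j = i then u j else 0
  have hcx : ∀ (ι : Fin m ↪ Fin N) (x : Fin N → ZMod p), ∑ i, c ι i * x i = ∑ j, u j * x (ι j) := by
    intro ι x
    simp only [c, sum_mul]
    rw [sum_comm]
    refine sum_congr rfl fun j _ => ?_
    simp [ite_mul]
  have hcj : ∀ (ι : Fin m ↪ Fin N) (j : Fin m), c ι (ι j) = u j := by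
    intro ι j
    simp only [c]
    rw [sum_eq_single j]
    · simp
    · intro b _ hb
      rw [if_neg fun h => hb (ι.injective h)]
    · simp
  have hc0 : ∀ (ι : Fin m ↪ Fin N) (i : Fin N), c ι i ≠ 0 ↔ ∃ j, ι j = i := by
    intro ι i
    constructor
    · intro h
      by_contra hn
      push Not at hn
      apply h
      simp only [c]
      exact sum_eq_zero fun j _ => if_neg (hn j)
    · rintro ⟨j, rfl⟩
      rw [hcj]
      exact hu j
  have hne : ∀ ι : Fin m ↪ Fin N, c ι ≠ 0 := by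
    intro ι h
    have := (hc0 ι (ι ⟨0, hm⟩)).2 ⟨_, rfl⟩
    rw [h] at this
    exact this rfl
  let n1 : (Fin m ↪ Fin N) → ℕ := fun ι => (univ.filter fun x : Fin N → ZMod p => ∑ j, u j * x (ι j) = s).card
  let n2 : (Fin m ↪ Fin N) → (Fin m ↪ Fin N) → ℕ := fun ι ι' => (univ.filter fun x : Fin N → ZMod p =>
    ∑ j, u j * x (ι j) = s ∧ ∑ j, u j * x (ι' j) = s).card
  have h1 : ∀ ι, p * n1 ι = p ^ N := by
    intro ι
    have := (hC p N (c ι) (c ι) s s (hne ι)).1
    simp only [hcx] at this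
    exact this
  have h2 : ∀ ι ι', p ^ 2 * n2 ι ι' ≤ p ^ N +
      (if (∀ i, (∃ j, ι' j = i) ↔ ∃ j, ι j = i) then p * p ^ N else 0) := by
    intro ι ι'
    by_cases hl : ∃ l, c ι' = fun i => l * c ι i
    · obtain ⟨l, hl⟩ := hl
      have hl0 : l ≠ 0 := by
        rintro rfl
        apply hne ι'
        rw [hl]
        funext i
        simp
      have hr : ∀ i, (∃ j, ι' j = i) ↔ ∃ j, ι j = i := by
        intro i
        rw [← hc0, ← hc0, hl]
        simp [hl0]
      rw [if_pos hr]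
      have h3 : n2 ι ι' ≤ n1 ι := card_le_card fun x hx => by
        rw [mem_filter] at hx ⊢
        exact ⟨hx.1, hx.2.1⟩
      calc p ^ 2 * n2 ι ι' ≤ p ^ 2 * n1 ι := Nat.mul_le_mul_left _ h3
        _ = p * (p * n1 ι) := by ring
        _ = p * p ^ N := by rw [h1]
        _ ≤ _ := Nat.le_add_left _ _
    · have := (hC p N (c ι) (c ι') s s (hne ι)).2 hl
      simp only [hcx] at this
      exact (le_of_eq this).trans (Nat.le_add_right _ _)
  let X : (Fin N → ZMod p) → ℕ := fun x => (univ.filter fun ι : Fin m ↪ Fin N => ∑ j, u j * x (ι j) = s).card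
  have hX : ∀ x, X x = ∑ ι : Fin m ↪ Fin N, if ∑ j, u j * x (ι j) = s then 1 else 0 := fun x => by
    simp only [X, card_filter]
  have hS1 : ∑ x, X x = ∑ ι, n1 ι := by
    simp only [hX, n1, card_filter]
    exact sum_comm
  have hS2 : ∑ x, X x ^ 2 = ∑ ι, ∑ ι', n2 ι ι' := by
    simp only [hX, n2, card_filter, sq, sum_mul_sum]
    rw [sum_comm]
    refine sum_congr rfl fun ι _ => ?_
    rw [sum_comm]
    refine sum_congr rfl fun ι' _ => sum_congr rfl fun x _ => ?_
    by_cases a : ∑ j, u j * x (ι j) = s <;> by_cases b : ∑ j, u j * x (ι' j) = s <;> simp [a, b]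
  set T := N.descFactorial m with hTd
  have hTc : Fintype.card (Fin m ↪ Fin N) = T := by
    rw [Fintype.card_embedding_eq, Fintype.card_fin, Fintype.card_fin]
  have e1 : p * ∑ x, X x = T * p ^ N := by
    rw [hS1, mul_sum, sum_congr rfl fun ι _ => h1 ι, sum_const, card_univ, hTc, smul_eq_mul]
  have e2 : p ^ 2 * ∑ x, X x ^ 2 ≤ T ^ 2 * p ^ N + T * m.factorial * p * p ^ N := by
    rw [hS2, mul_sum]
    have h3 : ∀ ι : Fin m ↪ Fin N, p ^ 2 * ∑ ι', n2 ι ι' ≤ T * p ^ N + m.factorial * (p * p ^ N) := by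
      intro ι
      rw [mul_sum]
      refine (sum_le_sum fun ι' _ => h2 ι ι').trans ?_
      rw [sum_add_distrib, sum_const, card_univ, hTc, smul_eq_mul, ← sum_filter, sum_const, smul_eq_mul]
      exact Nat.add_le_add_left (Nat.mul_le_mul_right _ (range_card ι)) _
    refine (sum_le_sum fun ι _ => h3 ι).trans ?_
    rw [sum_const, card_univ, hTc, smul_eq_mul]
    apply le_of_eq
    ring
  have hcard : (Finset.univ : Finset (Fin N → ZMod p)).card = p ^ N := by
    rw [card_univ, Fintype.card_fun, ZMod.card, Fintype.card_fin]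
  set Z := (univ.filter fun x : Fin N → ZMod p =>
    ¬ ∃ ι : Fin m ↪ Fin N, ∑ j, u j * x (ι j) = s) with hZ
  have e3 : (Z.card : ℤ) * (T : ℤ) ^ 2 ≤ ∑ x, ((p : ℤ) * X x - T) ^ 2 := by
    have h3 : ∑ x ∈ Z, ((p : ℤ) * X x - T) ^ 2 = (Z.card : ℤ) * (T : ℤ) ^ 2 := by
      rw [← nsmul_eq_mul, ← sum_const]
      refine sum_congr rfl fun x hx => ?_
      have hx0 : X x = 0 := by
        rw [hZ, mem_filter] at hx
        push Not at hx
        simp only [X, card_eq_zero, filter_eq_empty_iff]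
        intro ι _
        exact hx.2 ι
      rw [hx0]
      push_cast
      ring
    rw [← h3]
    exact sum_le_sum_of_subset_of_nonneg (subset_univ _) fun x _ _ => sq_nonneg _
  have e4 : ∑ x, ((p : ℤ) * X x - T) ^ 2 =
      ((p ^ 2 * ∑ x, X x ^ 2 : ℕ) : ℤ) - 2 * T * ((p * ∑ x, X x : ℕ) : ℤ) + T ^ 2 * (p : ℤ) ^ N := by
    have h3 : ∀ x, ((p : ℤ) * X x - T) ^ 2 = (p : ℤ) ^ 2 * (X x : ℤ) ^ 2 - 2 * T * p * (X x : ℤ) + (T : ℤ) ^ 2 := by
      intro x; ring
    simp only [h3]
    rw [sum_add_distrib, sum_sub_distrib, ← mul_sum, ← mul_sum, sum_const, hcard]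
    push_cast
    rw [nsmul_eq_mul]
    push_cast
    ring
  have e5 : (Z.card : ℤ) * (T : ℤ) ^ 2 ≤ T * m.factorial * p * (p : ℤ) ^ N := by
    refine e3.trans ?_
    rw [e4, e1]
    have : ((p ^ 2 * ∑ x, X x ^ 2 : ℕ) : ℤ) ≤ ((T ^ 2 * p ^ N + T * m.factorial * p * p ^ N : ℕ) : ℤ) := by
      exact_mod_cast e2
    push_cast at this ⊢
    linarith
  have e6 : Z.card * T ^ 2 ≤ T * m.factorial * p * p ^ N := by exact_mod_cast e5
  have hq : 0 < m.factorial * p := Nat.mul_pos (Nat.factorial_pos _) hp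
  have hTp : 0 < T := lt_of_lt_of_le (by positivity) hT
  have e7 : Z.card * T ≤ m.factorial * p * p ^ N := by
    apply Nat.le_of_mul_le_mul_left _ hTp
    calc T * (Z.card * T) = Z.card * T ^ 2 := by ring
      _ ≤ _ := e6
      _ = _ := by ring
  apply Nat.le_of_mul_le_mul_left _ hq
  calc m.factorial * p * (8 * Z.card) = Z.card * (8 * m.factorial * p) := by ring
    _ ≤ Z.card * T := Nat.mul_le_mul_left _ hT
    _ ≤ _ := e7

end Pool.Agent.X271.LF
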